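import Pool.Agent.N658.TP.Stm

/-!
# TP/Frob: relative Frobenius bound for the truncated expansion (helper79)
-/

set_option autoImplicit false
set_option linter.unusedSectionVars false

open scoped BigOperators Matrix InnerProductSpace
open Finset Pool.Agent.TH235.PP Pool.Agent.TH235.PQ

namespace Pool.Agent.N79.TP

section matrix

variable {n : Type*} [Fintype n] [DecidableEq n] [Nonempty n]

lemma fr_sum {ι : Type*} (s : Finset ι) (f : ι → Matrix n n ℂ) :
    fr (∑ i ∈ s, f i) ≤ ∑ i ∈ s, fr (f i) := by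
  classical
  induction s using Finset.induction_on with
  | empty => simp [fr_zero]
  | insert a s ha ih =>
    rw [Finset.sum_insert ha, Finset.sum_insert ha]
    exact (fr_add _ _).trans (add_le_add le_rfl ih)

open scoped Matrix.Norms.L2Operator in
/-- Perturbation of a power in a norm which is controlled by products of a seminorm. -/
lemma pow_pert {M : ℕ} (p : Matrix n n ℂ → ℝ) (hp0 : ∀ a, 0 ≤ p a) (S : ℝ) (hS : 0 ≤ S)
    (hνp : ∀ z : Fin M → Matrix n n ℂ, fr (op z) ≤ S * ∏ t, p (z t))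
    (G D : Matrix n n ℂ) (k : ℝ) (hG : p G ≤ 1) (hD : p D ≤ k) :
    fr ((G + D) ^ M - G ^ M) ≤ S * ((1 + k) ^ M - 1) := by
  classical
  have hk : 0 ≤ k := (hp0 D).trans hD
  set z : Bool → Matrix n n ℂ := fun x => if x then D else G with hz
  set a : Bool → ℝ := fun x => if x then k else 1 with ha
  have e1 : (G + D) ^ M = ∑ F : Fin M → Bool, op fun t => z (F t) := by
    rw [← op_sum (fun (_ : Fin M) (x : Bool) => z x), ← op_const (n := M) (G + D)]
    congr 1
    funext t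
    rw [Fintype.sum_bool, hz]
    simp only [if_true, Bool.false_eq_true, if_false]
    rw [add_comm]
  have e2 : G ^ M = op fun t => z ((fun _ : Fin M => false) t) := by
    rw [hz]
    simp only [Bool.false_eq_true, if_false]
    rw [op_const]
  have hb : ∀ F : Fin M → Bool, fr (op fun t => z (F t)) ≤ S * ∏ t, a (F t) := by
    intro F
    refine (hνp _).trans (mul_le_mul_of_nonneg_left ?_ hS)
    refine Finset.prod_le_prod (fun t _ => hp0 _) fun t _ => ?_
    rw [hz, ha]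
    simp only []
    cases F t
    · simpa using hG
    · simpa using hD
  have e3 : ∑ F : Fin M → Bool, ∏ t, a (F t) = (1 + k) ^ M := by
    have h := Finset.prod_univ_sum (ι := Fin M) (fun _ => (univ : Finset Bool)) (fun _ x => a x)
    rw [Fintype.piFinset_univ] at h
    rw [← h]
    rw [Finset.prod_const, Finset.card_univ, Fintype.card_fin, Fintype.sum_bool]
    congr 1
    rw [ha]
    simp only [if_true, Bool.false_eq_true, if_false]
    rw [add_comm]
  have e4 : ∏ t : Fin M, a ((fun _ : Fin M => false) t) = 1 := by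
    rw [ha]
    simp
  rw [e1, e2, ← Finset.add_sum_erase univ _ (mem_univ (fun _ : Fin M => false)),
    add_sub_cancel_left]
  refine (fr_sum _ _).trans ((Finset.sum_le_sum fun F _ => hb F).trans ?_)
  rw [← Finset.mul_sum]
  refine mul_le_mul_of_nonneg_left ?_ hS
  rw [← Finset.add_sum_erase univ _ (mem_univ (fun _ : Fin M => false)), e4] at e3
  linarith

end matrix

open scoped Matrix.Norms.L2Operator in
theorem frob : Pool.Agent.N658.TP.StmFrob := by
  intro n _ _ _ A hA κ hl N adj K hsym hirr hK1 hK q r y hyG y0 hy0 hy1 hy hN hM hr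
  have hM1 : 1 ≤ tm q := tm_pos q
  obtain ⟨U, hU, hU', hdec⟩ := spec_dec A hA
  set l : n → ℝ := fun j => 1 - κ * hA.eigenvalues j with hldef
  have hl' : ∀ j, 3 / 4 ≤ l j := hl
  have hl0 : ∀ j, 0 ≤ l j := fun j => by linarith [hl' j]
  set G : Matrix n n ℂ := U * Matrix.diagonal (fun j => ((l j : ℝ) : ℂ)) * Uᴴ with hG
  set Gi : Matrix n n ℂ := U * Matrix.diagonal (fun j => (((l j)⁻¹ : ℝ) : ℂ)) * Uᴴ with hGi
  have hGG : G * Gi = 1 := by
    rw [hG, hGi]
    calc U * Matrix.diagonal (fun j => ((l j : ℝ) : ℂ)) * Uᴴ *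
          (U * Matrix.diagonal (fun j => (((l j)⁻¹ : ℝ) : ℂ)) * Uᴴ)
        = U * (Matrix.diagonal (fun j => ((l j : ℝ) : ℂ)) * (Uᴴ * U) *
          Matrix.diagonal (fun j => (((l j)⁻¹ : ℝ) : ℂ))) * Uᴴ := by simp only [mul_assoc]
      _ = 1 := by
        rw [hU, mul_one, Matrix.diagonal_mul_diagonal]
        have : (fun i => ((l i : ℝ) : ℂ) * (((l i)⁻¹ : ℝ) : ℂ)) = fun _ => 1 := by
          funext i
          rw [← Complex.ofReal_mul, mul_inv_cancel₀ (by linarith [hl' i]), Complex.ofReal_one]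
        rw [this, Matrix.diagonal_one, mul_one, hU']
  have hGG' : Gi * G = 1 := by
    rw [hG, hGi]
    calc U * Matrix.diagonal (fun j => (((l j)⁻¹ : ℝ) : ℂ)) * Uᴴ *
          (U * Matrix.diagonal (fun j => ((l j : ℝ) : ℂ)) * Uᴴ)
        = U * (Matrix.diagonal (fun j => (((l j)⁻¹ : ℝ) : ℂ)) * (Uᴴ * U) *
          Matrix.diagonal (fun j => ((l j : ℝ) : ℂ))) * Uᴴ := by simp only [mul_assoc]
      _ = 1 := by
        rw [hU, mul_one, Matrix.diagonal_mul_diagonal]
        have : (fun i => (((l i)⁻¹ : ℝ) : ℂ) * ((l i : ℝ) : ℂ)) = fun _ => 1 := by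
          funext i
          rw [← Complex.ofReal_mul, inv_mul_cancel₀ (by linarith [hl' i]), Complex.ofReal_one]
        rw [this, Matrix.diagonal_one, mul_one, hU']
  have hUn := norm_unit U hU
  have hGin : ‖Gi‖ ≤ 4 / 3 := by
    have h2 : ‖(Matrix.diagonal (fun j => (((l j)⁻¹ : ℝ) : ℂ)) : Matrix n n ℂ)‖ ≤ 4 / 3 := by
      rw [Matrix.l2_opNorm_diagonal, pi_norm_le_iff_of_nonneg (by norm_num)]
      intro j
      rw [Complex.norm_real, Real.norm_eq_abs, abs_of_nonneg (inv_nonneg.2 (hl0 j))]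
      rw [inv_le_comm₀ (by linarith [hl' j]) (by norm_num)]
      linarith [hl' j]
    rw [hGi]
    calc _ ≤ ‖U‖ * ‖(Matrix.diagonal (fun j => (((l j)⁻¹ : ℝ) : ℂ)) : Matrix n n ℂ)‖ * ‖Uᴴ‖ :=
          (norm_mul_le _ _).trans (mul_le_mul_of_nonneg_right (norm_mul_le _ _) (norm_nonneg _))
      _ ≤ 1 * (4 / 3) * 1 := by
          rw [Matrix.l2_opNorm_conjTranspose]
          exact mul_le_mul (mul_le_mul hUn h2 (norm_nonneg _) zero_le_one) hUn (norm_nonneg _)
            (by norm_num)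
      _ = 4 / 3 := by norm_num
  have hS0 : 0 ≤ ∑ j, l j ^ (2 * tm q) := Finset.sum_nonneg fun j _ => pow_nonneg (hl0 j) _
  have hνp : ∀ z : Fin (tm q) → Matrix n n ℂ,
      fr (op z) ≤ Real.sqrt (∑ j, l j ^ (2 * tm q)) * ∏ t, ‖Gi * z t‖ := by
    intro z
    have e : op z = op fun t => G * (Gi * z t) := by
      congr 1
      funext t
      rw [← mul_assoc, hGG, one_mul]
    have h1 := frob_op U hU l hl0 hM1 fun t => Gi * z t
    rw [← hG, ← e] at h1
    apply le_of_sq_le_sq _ (mul_nonneg (Real.sqrt_nonneg _)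
      (Finset.prod_nonneg fun t _ => norm_nonneg _))
    rw [fr_sq, mul_pow, Real.sq_sqrt hS0]
    exact h1
  have hpG : ‖Gi * (1 + ∑ b, y b)‖ ≤ 1 := by rw [hyG, hdec κ, hGG', norm_one]
  have h := (KA_bound (Pool.Agent.TH235.PQ.comb Pool.Agent.TH235.PQ.pair) adj K hsym hirr hK1
    (fun b => by
      have := hK b
      convert this) q r (fun a => ‖Gi * a‖) fr
    (fun a => norm_nonneg _)
    (fun a b => by rw [mul_add]; exact norm_add_le _ _)
    (fun a => (norm_mul_le _ _).trans (mul_le_mul_of_nonneg_right hGin (norm_nonneg _)))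
    fr_zero fr_add fr_neg (Real.sqrt (∑ j, l j ^ (2 * tm q))) (Real.sqrt_nonneg _) hνp y y0 hy0
    hy1 hy hpG hN hM hr).2
  set S : ℝ := Real.sqrt (∑ j, l j ^ (2 * tm q)) with hS
  set T : Matrix n n ℂ := op fun b => 1 + y b with hT
  have hTG : ‖Gi * (T - (1 + ∑ b, y b))‖ ≤ 4 / 3 * (N * y0) ^ 2 := by
    have h2 : ‖T - (1 + ∑ b, y b)‖ ≤ (N * y0) ^ 2 :=
      ((norm_op_sub y y0 hy hy0).2).trans (pow_bd hy0 (by linarith))
    exact (norm_mul_le _ _).trans (mul_le_mul hGin h2 (norm_nonneg _) (by norm_num))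
  have h3 := pow_pert (fun a => ‖Gi * a‖) (fun a => norm_nonneg _) S (Real.sqrt_nonneg _) hνp
    (1 + ∑ b, y b) (T - (1 + ∑ b, y b)) _ hpG hTG
  rw [add_sub_cancel] at h3
  set u : ℝ := (tm q : ℝ) * (4 / 3 * (N * y0) ^ 2) with hu
  have hu0 : 0 ≤ u := by positivity
  have hu1 : u ≤ 1 := by rw [hu]; linarith
  have h4 : (1 + 4 / 3 * (N * y0) ^ 2) ^ tm q - 1 ≤ 2 * u := by
    have h5 : (1 + 4 / 3 * (N * y0) ^ 2) ^ tm q ≤ Real.exp u := by
      rw [hu, Real.exp_nat_mul]
      exact pow_le_pow_left₀ (by positivity)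
        (by linarith [Real.add_one_le_exp (4 / 3 * ((N : ℝ) * y0) ^ 2)]) _
    have h6 := exp_bd2 hu0 hu1
    linarith
  have hS1 : 0 ≤ S := Real.sqrt_nonneg _
  set δ : ℝ := N * Real.exp (100 * (K + 1) ^ 2 * (1 + tm q * y0) -
    r / (10 * K * (K + 1) ^ 2)) with hδ
  have hδ0 : 0 ≤ δ := by positivity
  have h7 : fr (KA adj q y r - (1 + ∑ b, y b) ^ tm q) ≤
      S * (6 * δ + 4 * (tm q * (N * y0) ^ 2)) := by
    calc fr (KA adj q y r - (1 + ∑ b, y b) ^ tm q) =
        fr ((KA adj q y r - T ^ tm q) + (T ^ tm q - (1 + ∑ b, y b) ^ tm q)) := by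
          congr 1; abel
      _ ≤ S * (6 * δ) + S * ((1 + 4 / 3 * (N * y0) ^ 2) ^ tm q - 1) :=
          (fr_add _ _).trans (add_le_add h h3)
      _ ≤ S * (6 * δ) + S * (2 * u) := add_le_add le_rfl (mul_le_mul_of_nonneg_left h4 hS1)
      _ ≤ S * (6 * δ + 4 * (tm q * (N * y0) ^ 2)) := by
          rw [← mul_add]
          refine mul_le_mul_of_nonneg_left ?_ hS1
          have : 0 ≤ (tm q : ℝ) * (N * y0) ^ 2 := by positivity
          rw [hu]; linarith
  have h8 := pow_le_pow_left₀ (fr_nonneg _) h7 2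
  rw [fr_sq, mul_pow, hS, Real.sq_sqrt hS0, hyG] at h8
  rw [mul_comm]
  exact h8

end Pool.Agent.N79.TP
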