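import Pool.Agent.N658.TP.Stm2
import Pool.Agent.N163.TP.Therm

/-!
# TP/ReachB: Reach in terms of the entropy (helper79)
-/

set_option autoImplicit false

open scoped BigOperators ComplexConjugate Classical InnerProductSpace Matrix ComplexOrder
open scoped Matrix.Norms.L2Operator

noncomputable section

namespace Pool.Agent.N79.TP

open Pool.Agent.N658.TP Pool.Agent.Y738.PE Pool.Agent.TH235 Pool.Agent.N163.TP

theorem isPEPS_pow {d L : ℕ} [NeZero L] (T : PP.TorOp d L) (W : ℕ)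
    (hT : ∀ (D : ℕ) (ψ : (PP.Site L → Fin d) → ℂ), PP.IsPEPS D ψ →
      PP.IsPEPS (D * W) (T *ᵥ ψ) ∧ PP.IsPEPS (D * W) (Tᴴ *ᵥ ψ))
    (D : ℕ) (ψ : (PP.Site L → Fin d) → ℂ) (hψ : PP.IsPEPS D ψ) (j : ℕ) :
    PP.IsPEPS (D * (W * W) ^ j) ((Tᴴ * T) ^ j *ᵥ ψ) := by
  induction j with
  | zero => simpa using hψ
  | succ j ih =>
    have e : (Tᴴ * T) ^ (j + 1) *ᵥ ψ = Tᴴ *ᵥ (T *ᵥ ((Tᴴ * T) ^ j *ᵥ ψ)) := by
      rw [pow_succ', ← Matrix.mulVec_mulVec, ← Matrix.mulVec_mulVec]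
    have e2 : D * (W * W) ^ (j + 1) = D * (W * W) ^ j * W * W := by ring
    rw [e, e2]
    exact (hT _ _ (hT _ _ ih).1).2

theorem qf_smul {n : Type} [Fintype n] (A : Matrix n n ℂ) (c : ℝ) (v : n → ℂ) :
    qf A ((c : ℂ) • v) = c ^ 2 * qf A v := by
  unfold qf PP.ip
  rw [Matrix.mulVec_smul]
  have : ∑ s, (starRingEnd ℂ) (((c : ℂ) • v) s) * ((c : ℂ) • A *ᵥ v) s =
      ((c ^ 2 : ℝ) : ℂ) * ∑ s, (starRingEnd ℂ) (v s) * (A *ᵥ v) s := by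
    rw [Finset.mul_sum]
    refine Finset.sum_congr rfl fun s _ => ?_
    simp only [Pi.smul_apply, smul_eq_mul, map_mul, Complex.conj_ofReal]
    push_cast
    ring
  rw [this, Complex.re_ofReal_mul]

theorem nsq_smul {n : Type} [Fintype n] (c : ℝ) (v : n → ℂ) :
    nsq ((c : ℂ) • v) = c ^ 2 * nsq v := by
  unfold nsq PP.normSq
  rw [Finset.mul_sum]
  refine Finset.sum_congr rfl fun s _ => ?_
  rw [Pi.smul_apply, smul_eq_mul, norm_mul, Complex.norm_real, mul_pow, Real.norm_eq_abs, sq_abs]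

/-- the numbers of the energy estimate -/
theorem num_en (b k m S η ε τ J0 r C E0 Eφ P : ℝ) (hb : 1 ≤ b) (hk : 1 ≤ k) (hm : m = b * (2 * k))
    (hε : 0 < ε) (hτ : 0 < τ) (hη : η ≤ ε * τ) (hJ1 : 1 ≤ J0)
    (hJ : S / (4 * τ * b ^ 2 * ε) ≤ J0) (hC4 : 4 ≤ C) (hCr : 6 * r ≤ C) (hCτ : 2 / τ ≤ C)
    (hCm : C / ε ≤ m) (hE : Eφ ≤ m ^ 2 * E0 + 12 * r * (b * k))
    (hP : P ≤ (2 * k) ^ 2 * (S + 2 * η)) :
    Eφ + P / (4 * J0 * τ) + 4 * (1 / 2) / τ ≤ (E0 + C * ε) * m ^ 2 := by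
  have hm1 : 1 ≤ m := by rw [hm]; nlinarith
  have hmε : C ≤ m * ε := by rwa [div_le_iff₀ hε] at hCm
  have hb2 : 1 ≤ b ^ 2 := one_le_pow₀ hb
  have hk2 : 0 < (2 * k) ^ 2 := by positivity
  have hS : S ≤ J0 * (4 * τ * b ^ 2 * ε) := by rwa [div_le_iff₀ (by positivity)] at hJ
  have hm2 : m ^ 2 = b ^ 2 * (2 * k) ^ 2 := by rw [hm]; ring
  have h1 : P ≤ 3 / 2 * ε * m ^ 2 * (4 * J0 * τ) := by
    refine hP.trans ?_
    have h2 : (2 * k) ^ 2 * S ≤ (2 * k) ^ 2 * (J0 * (4 * τ * b ^ 2 * ε)) :=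
      mul_le_mul_of_nonneg_left hS hk2.le
    have h3 : (2 * k) ^ 2 * (2 * η) ≤ 2 * (ε * τ) * m ^ 2 * J0 := by
      have h4 : (2 * k) ^ 2 ≤ m ^ 2 := by rw [hm2]; nlinarith
      have h5 : 0 < ε * τ := by positivity
      calc (2 * k) ^ 2 * (2 * η) ≤ (2 * k) ^ 2 * (2 * (ε * τ)) :=
            mul_le_mul_of_nonneg_left (by linarith) hk2.le
        _ ≤ m ^ 2 * (2 * (ε * τ)) := mul_le_mul_of_nonneg_right h4 (by positivity)
        _ = 2 * (ε * τ) * m ^ 2 * 1 := by ring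
        _ ≤ 2 * (ε * τ) * m ^ 2 * J0 := mul_le_mul_of_nonneg_left hJ1 (by positivity)
    calc (2 * k) ^ 2 * (S + 2 * η) = (2 * k) ^ 2 * S + (2 * k) ^ 2 * (2 * η) := by ring
      _ ≤ (2 * k) ^ 2 * (J0 * (4 * τ * b ^ 2 * ε)) + 2 * (ε * τ) * m ^ 2 * J0 :=
          add_le_add h2 h3
      _ = 3 / 2 * ε * m ^ 2 * (4 * J0 * τ) := by rw [hm2]; ring
  have h2 : P / (4 * J0 * τ) ≤ 3 / 2 * ε * m ^ 2 := by
    rw [div_le_iff₀ (by positivity)]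
    exact h1
  have h3 : 4 * (1 / 2) / τ ≤ ε * m ^ 2 := by
    have e : 4 * (1 / 2) / τ = 2 / τ := by ring
    rw [e]
    have h4 : 0 ≤ m * ε := by positivity
    nlinarith
  have h4 : 12 * r * (b * k) ≤ ε * m ^ 2 := by
    have e : 12 * r * (b * k) = 6 * r * m := by rw [hm]; ring
    rw [e]
    have h5 : 6 * r ≤ m * ε := hCr.trans hmε
    nlinarith
  have h5 : 0 ≤ ε * m ^ 2 := by positivity
  nlinarith

/-- the numbers of the bond dimension -/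
theorem num_bd (d b W j J0 : ℕ) (S ε τ C0 C lm : ℝ) (hd : 2 ≤ d) (hb : 0 < b) (hε : 0 < ε)
    (hτ : 0 < τ) (hS : 0 ≤ S) (hC0 : 0 < C0) (hlm : 0 ≤ lm) (hW : (W : ℝ) ≤ Real.exp (C0 * lm))
    (hj : j ≤ J0) (hJ : (J0 : ℝ) ≤ S / (4 * τ * (b : ℝ) ^ 2 * ε) + 2) (hCd : Real.log d ≤ C)
    (hC1 : 4 * C0 ≤ C) (hC2 : C0 / (2 * τ) ≤ C) :
    ((d ^ (b * b) * (W * W) ^ j : ℕ) : ℝ) ≤
      Real.exp (C * ((b : ℝ) ^ 2 + (1 + S / ((b : ℝ) ^ 2 * ε)) * lm)) := by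
  have hd0 : (0 : ℝ) < d := by
    have : 0 < d := by omega
    exact_mod_cast this
  have hb0 : (0 : ℝ) < b := by exact_mod_cast hb
  have h1 : ((d : ℝ)) ^ (b * b) = Real.exp ((b : ℝ) ^ 2 * Real.log d) := by
    have e : (b : ℝ) ^ 2 * Real.log d = ((b * b : ℕ) : ℝ) * Real.log d := by push_cast; ring
    rw [e, Real.exp_nat_mul, Real.exp_log hd0]
  have h2 : ((W : ℝ) * W) ^ j ≤ Real.exp ((J0 : ℝ) * (2 * (C0 * lm))) := by
    have h3 : (W : ℝ) * W ≤ Real.exp (2 * (C0 * lm)) := by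
      rw [two_mul, Real.exp_add]
      exact mul_le_mul hW hW (Nat.cast_nonneg _) (Real.exp_pos _).le
    calc ((W : ℝ) * W) ^ j ≤ (Real.exp (2 * (C0 * lm))) ^ j :=
          pow_le_pow_left₀ (by positivity) h3 j
      _ = Real.exp ((j : ℝ) * (2 * (C0 * lm))) := (Real.exp_nat_mul _ _).symm
      _ ≤ Real.exp ((J0 : ℝ) * (2 * (C0 * lm))) := by
          apply Real.exp_le_exp.2
          exact mul_le_mul_of_nonneg_right (by exact_mod_cast hj) (by positivity)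
  have hbε : 0 < (b : ℝ) ^ 2 * ε := by positivity
  have h3 : (J0 : ℝ) * (2 * (C0 * lm)) ≤ C * (1 + S / ((b : ℝ) ^ 2 * ε)) * lm := by
    have h4 : (J0 : ℝ) * (2 * C0) ≤ C * (1 + S / ((b : ℝ) ^ 2 * ε)) := by
      have h5 : S / (4 * τ * (b : ℝ) ^ 2 * ε) = S / ((b : ℝ) ^ 2 * ε) * (1 / (4 * τ)) := by
        field_simp
      rw [h5] at hJ
      have h6 : 0 ≤ S / ((b : ℝ) ^ 2 * ε) := by positivity
      generalize S / ((b : ℝ) ^ 2 * ε) = x at hJ h6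
      have h7 : (J0 : ℝ) * (2 * C0) ≤ (x * (1 / (4 * τ)) + 2) * (2 * C0) :=
        mul_le_mul_of_nonneg_right hJ (by positivity)
      have h8 : (x * (1 / (4 * τ)) + 2) * (2 * C0) = x * (C0 / (2 * τ)) + 4 * C0 := by
        field_simp
        ring
      have h9 : x * (C0 / (2 * τ)) ≤ x * C := mul_le_mul_of_nonneg_left hC2 h6
      nlinarith
    calc (J0 : ℝ) * (2 * (C0 * lm)) = (J0 : ℝ) * (2 * C0) * lm := by ring
      _ ≤ _ := mul_le_mul_of_nonneg_right h4 hlm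
  push_cast
  rw [h1]
  refine (mul_le_mul_of_nonneg_left h2 (Real.exp_pos _).le).trans ?_
  rw [← Real.exp_add]
  apply Real.exp_le_exp.2
  have h4 : (b : ℝ) ^ 2 * Real.log d ≤ (b : ℝ) ^ 2 * C :=
    mul_le_mul_of_nonneg_left hCd (by positivity)
  nlinarith

theorem reachB (h1 : StmTel) (h2 : StmSlice) (h3 : StmSeed) (h4 : StmRef) (h5 : StmRdm)
    (h6 : StmCmpB) : StmReachB := by
  intro d r hd hr
  obtain ⟨R', rfl⟩ : ∃ R', r = R' + 1 := ⟨r - 1, by omega⟩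
  obtain ⟨τ, hτ, C0, hC0, H2⟩ := h2 d R' (((Fintype.card (BConf d (R' + 1)) : ℕ) : ℝ) *
    ((Fintype.card (BConf d (R' + 1)) : ℕ) : ℝ)) hd
  have hlogd : 0 ≤ Real.log d := Real.log_natCast_nonneg d
  set C : ℝ := 4 + 6 * ((R' + 1 : ℕ) : ℝ) + 2 / τ + Real.log d + 4 * C0 + C0 / (2 * τ) with hC
  have e1 : 0 ≤ 6 * ((R' + 1 : ℕ) : ℝ) := by positivity
  have e2 : 0 ≤ 2 / τ := by positivity
  have e3 : 0 ≤ 4 * C0 := by positivity
  have e4 : 0 ≤ C0 / (2 * τ) := by positivity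
  have hCpos : 0 < C := by rw [hC]; linarith
  refine ⟨C, hCpos, ?_⟩
  intro b k L _ _ hb hk hbL ε hε hε1 hCm Ψ hΨ hTI
  have hCε : C ≤ C / ε := by
    rw [le_div_iff₀ hε]
    nlinarith
  have hbk : R' + 1 ≤ b * k := by
    have g1 : 6 * ((R' + 1 : ℕ) : ℝ) ≤ ((b * (2 * k) : ℕ) : ℝ) := by
      have : 6 * ((R' + 1 : ℕ) : ℝ) ≤ C := by rw [hC]; linarith
      linarith
    have g2 : 6 * (R' + 1) ≤ b * (2 * k) := by exact_mod_cast g1
    have g3 : b * (2 * k) = 2 * (b * k) := by ring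
    omega
  have hbkm : b * k ≤ b * (2 * k) := Nat.mul_le_mul_left b (by omega)
  have hrm : R' + 1 ≤ b * (2 * k) := hbk.trans hbkm
  have hm2 : 2 ≤ b * (2 * k) := by
    have g3 : b * (2 * k) = 2 * (b * k) := by ring
    have : 0 < b * k := Nat.mul_pos hb hk
    omega
  have hbL' : b ≤ L := by
    have : b * 1 ≤ b * (2 * k) := Nat.mul_le_mul_left b (by omega)
    omega
  obtain ⟨hρ, hρt, hS0, hSle, hρB⟩ := h5 d L b hbL' Ψ hΨ
  set S : ℝ := vnE (rdm Ψ b) with hS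
  obtain ⟨φ, hφ, hφE, hφt⟩ := h6 d (R' + 1) b k L (Nat.succ_pos _) hb hk hbk hbL Ψ hΨ hTI
  set η : ℝ := min (1 / 2) (ε * τ) with hη
  have hη0 : 0 < η := lt_min (by norm_num) (by positivity)
  obtain ⟨q, g, Γ, hΓ, hq, hΓe, hΓt, hΓφ⟩ := h4 d b (2 * k) hd hb (by omega) (rdm Ψ b) hρ hρt η hη0
    (min_le_left _ _) φ hφ (fun t B => by rw [hφt t B, hρB B])
  set x : ℝ := S / (4 * τ * (b : ℝ) ^ 2 * ε) with hx
  have hb0 : (0 : ℝ) < b := by exact_mod_cast hb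
  have hx0 : 0 ≤ x := by positivity
  set J0 : ℕ := ⌈x⌉₊ + 1 with hJ0
  have hJx : x ≤ J0 := by
    rw [hJ0]; push_cast
    linarith [Nat.le_ceil x]
  have hJx2 : (J0 : ℝ) ≤ x + 2 := by
    rw [hJ0]; push_cast
    linarith [Nat.ceil_lt_add_one hx0]
  have hJ1 : (1 : ℝ) ≤ J0 := by
    rw [hJ0]; push_cast
    linarith [(Nat.cast_nonneg ⌈x⌉₊ : (0 : ℝ) ≤ (⌈x⌉₊ : ℝ))]
  obtain ⟨W, hW, H3⟩ := H2 (b * (2 * k)) hm2 hrm
  have hlm : 0 ≤ Real.log ((b * (2 * k) : ℕ) : ℝ) := Real.log_natCast_nonneg _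
  refine ⟨⌊Real.exp (C * ((b : ℝ) ^ 2 + (1 + S / ((b : ℝ) ^ 2 * ε)) *
    Real.log ((b * (2 * k) : ℕ) : ℝ)))⌋₊, Nat.floor_le (Real.exp_pos _).le, ?_⟩
  intro B hB hBc
  have hherm : (Matrix.of B : PP.BoxOp d (R' + 1)).IsHermitian := by
    refine Matrix.IsHermitian.ext fun i j => ?_
    show star (B j i) = B i j
    rw [hB i j]
    simp
  have hJ : PP.nJ (Matrix.of B : PP.BoxOp d (R' + 1)) ≤
      ((Fintype.card (BConf d (R' + 1)) : ℕ) : ℝ) *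
        ((Fintype.card (BConf d (R' + 1)) : ℕ) : ℝ) := by
    unfold PP.nJ
    calc ∑ p : BConf d (R' + 1), ∑ q : BConf d (R' + 1), ‖Matrix.of B p q‖
        ≤ ∑ _p : BConf d (R' + 1), ∑ _q : BConf d (R' + 1), (1 : ℝ) :=
          Finset.sum_le_sum fun p _ => Finset.sum_le_sum fun q _ => contr_entry B hBc p q
      _ = _ := by
        simp only [Finset.sum_const, Finset.card_univ, nsmul_eq_mul, mul_one]
  obtain ⟨T, hT, hTP⟩ := H3 (Matrix.of B) hherm hJ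
  obtain ⟨j, hj, s, hv0, hvE⟩ := h1 (Conf d (b * (2 * k))) (PP.ham (Matrix.of B) (b * (2 * k))) T Γ τ
    (1 / 2) J0 (Fin (2 * k) × Fin (2 * k) → BConf d b) q (fun s => prodV (g s))
    (PP.ham_herm _ hherm) hΓ hτ (by norm_num) le_rfl (by omega) hT hq hΓe hΓt φ hφ
  obtain ⟨Cs, hCs⟩ := h3 d b (2 * k) hb (by omega) (g s)
  have hseed : PP.IsPEPS (d ^ (b * b)) (prodV (g s)) := ⟨Cs, hCs.symm⟩
  have hpeps := isPEPS_pow T W hTP _ _ hseed j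
  set v : Conf d (b * (2 * k)) → ℂ := (Tᴴ * T) ^ j *ᵥ prodV (g s) with hv
  set c : ℝ := (Real.sqrt (nsq v))⁻¹ with hc
  have hc2 : c ^ 2 * nsq v = 1 := by
    rw [hc, inv_pow, Real.sq_sqrt hv0.le, inv_mul_cancel₀ hv0.ne']
  obtain ⟨A, hA⟩ := hpeps.smul (c : ℂ)
  have hDf : d ^ (b * b) * (W * W) ^ j ≤ ⌊Real.exp (C * ((b : ℝ) ^ 2 +
      (1 + S / ((b : ℝ) ^ 2 * ε)) * Real.log ((b * (2 * k) : ℕ) : ℝ)))⌋₊ :=
    Nat.le_floor (num_bd d b W j J0 S ε τ C0 C _ hd hb hε hτ hS0 hC0 hlm hW hj hJx2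
      (by rw [hC]; linarith) (by rw [hC]; linarith) (by rw [hC]; linarith))
  refine ⟨padT _ A, ?_, ?_⟩
  · rw [pepsN_pad hDf, ← hA]
    exact (nsq_smul c v).trans hc2
  · rw [pepsN_pad hDf, ← hA, ← ip_ham hrm B]
    have g1 : (PP.ip ((c : ℂ) • v) (PP.ham (Matrix.of B) (b * (2 * k)) *ᵥ ((c : ℂ) • v))).re =
        c ^ 2 * qf (PP.ham (Matrix.of B) (b * (2 * k))) v := qf_smul _ c v
    rw [g1]
    have g2 : c ^ 2 * qf (PP.ham (Matrix.of B) (b * (2 * k))) v ≤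
        qf (PP.ham (Matrix.of B) (b * (2 * k))) φ + (-qf Γ φ) / (4 * J0 * τ) + 4 * (1 / 2) / τ := by
      have := mul_le_mul_of_nonneg_left hvE (sq_nonneg c)
      refine this.trans (le_of_eq ?_)
      rw [mul_comm _ (nsq v), ← mul_assoc, hc2, one_mul]
    refine g2.trans ?_
    have g3 : qf (PP.ham (Matrix.of B) (b * (2 * k))) φ ≤
        ((b * (2 * k) : ℕ) : ℝ) ^ 2 * (expec Ψ 0 B).re +
          12 * ((R' + 1 : ℕ) : ℝ) * ((b : ℝ) * k) := by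
      have g4 : qf (PP.ham (Matrix.of B) (b * (2 * k))) φ = (enS φ B).re := by
        unfold qf
        rw [ip_ham hrm B]
      have g5 := (Complex.abs_re_le_norm _).trans (hφE B hBc)
      rw [Complex.sub_re] at g5
      have g6 : (((b * (2 * k) : ℕ) : ℂ) ^ 2 * expec Ψ 0 B).re =
          ((b * (2 * k) : ℕ) : ℝ) ^ 2 * (expec Ψ 0 B).re := by
        have : (((b * (2 * k) : ℕ) : ℂ) ^ 2) = ((((b * (2 * k) : ℕ) : ℝ) ^ 2 : ℝ) : ℂ) := by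
          push_cast; ring
        rw [this, Complex.re_ofReal_mul]
      rw [g6] at g5
      have g7 := (abs_le.1 g5).2
      rw [g4]
      push_cast at g7 ⊢
      linarith
    exact num_en b k _ S η ε τ J0 ((R' + 1 : ℕ) : ℝ) C _ _ _ (by exact_mod_cast hb)
      (by exact_mod_cast hk) (by push_cast; ring) hε hτ (min_le_right _ _) hJ1 hJx
      (by rw [hC]; linarith) (by rw [hC]; linarith) (by rw [hC]; linarith) hCm g3
      (by
        have := hΓφ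
        push_cast at this
        exact this)

end Pool.Agent.N79.TP
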